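import Pool.Agent.MP_a88b1d_nt.H42.Spec

/-! The relations coming from the first degeneracy map. -/

open Polynomial

noncomputable section

namespace Pool.Agent.MP_a88b1d_nt.H17

open Pool.Agent.MP_a88b1d_nt.H42

/-- splitting a finitely supported sum along a bijection from a product -/
theorem finsum_split {ι K H : Type} [Fintype ι] (e : ι × K → H) (he : Function.Bijective e)
    (F : H → ℤ) (hF : (Function.support F).Finite) :
    ∑ᶠ h, F h = ∑ i, ∑ᶠ k, F (e (i, k)) := by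
  rw [← finsum_eq_of_bijective (f := F ∘ e) e he fun _ => rfl, finsum_curry (F ∘ e)
    (hF.preimage he.1.injOn), finsum_eq_sum_of_fintype]
  rfl

theorem DD_inv {V : Type} [Monoid V] {d : V → V → ℕ} {s : Fin 3 → V} (h : IsTree d s)
    (g x y u u' : V) : DD d (g * x) (g * y) (g * u) (g * u') = DD d x y u u' := by
  simp only [DD, h.inv]

theorem le_q : Gam0 (pp * qq) ≤ Gam0 qq := fun _ h => (dvd_mul_left qq pp).trans h

variable {C : Type} [NontriviallyNormedField C] [Algebra (ZMod 2) C]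

/-- a new element is killed by the pairing at level `qq` -/
theorem new_zero (T : C) (hp : PA) (ht : TREE T) (hm : PM T) {μ : Gam0 (pp * qq)} (hμ : New μ)
    (d : A) (hd : d = 1 ∨ d = pp) (g' : Gam0 qq)
    (h : !![d, 0; 0, 1] * μ.1.1 = g'.1.1 * !![d, 0; 0, 1]) (x y : MK T) :
    Psi (dd T) (r0 T qq) x y 1 (r0 T qq g') = 0 := by
  have api := hp _ _ _ _ (r0 T qq) ht.tree (hm.good0 qq).2
  exact hμ d hd (MonoidHom.mk' (fun g => Multiplicative.ofAdd
    (Psi (dd T) (r0 T qq) x y 1 (r0 T qq g))) fun a b => congrArg Multiplicative.ofAdd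
      (api.hom a b x y)) g' h

theorem eqa (T : C) (_hT : 1 < ‖T‖) (hp : PA) (ht : TREE T) (hm : PM T) (hq : PT) : EQA T := by
  intro μ f hμ hf y hy
  have api := hp _ _ _ _ (r0 T qq) ht.tree (hm.good0 qq).2
  choose g hg using fun x : Fin 5 => hq.surj (x.1, y) ⟨Nat.le_of_lt_succ x.2, hy⟩
  have h0 := new_zero T hp ht hm hμ 1 (Or.inl rfl) ⟨μ.1, le_q μ.2⟩
    (by rw [← Matrix.one_fin_two, one_mul, mul_one]) (rG T (g 0) * vv T 0) (rG T (g 0) * vv T 1)
  let e : Fin 5 × Gam0 (pp * qq) → Gam0 qq := fun p =>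
    ⟨g 0 * (g p.1)⁻¹ * p.2.1, mul_mem (hq.orbq y _ _ (hg p.1).2 (hg 0).2) (le_q p.2.2)⟩
  have he : Function.Bijective e := by
    constructor
    · rintro ⟨x, γ⟩ ⟨x', γ'⟩ h
      have h1 : g 0 * (g x)⁻¹ * γ.1 = g 0 * (g x')⁻¹ * γ'.1 := congrArg Subtype.val h
      rw [mul_assoc, mul_assoc, mul_right_inj] at h1
      have h2 : γ.1⁻¹ * g x = γ'.1⁻¹ * g x' := by
        simpa using congrArg (·⁻¹) h1
      have h3 := hq.uniq _ _ _ (hq.left _ _ _ (inv_mem γ.2) (hg x))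
        (h2 ▸ hq.left _ _ _ (inv_mem γ'.2) (hg x'))
      obtain rfl : x = x' := Fin.ext (congrArg Prod.fst h3)
      rw [Subtype.ext (mul_left_cancel h1 : γ.1 = γ'.1)]
    · intro a
      obtain ⟨P, hP⟩ := hq.ex (a.1⁻¹ * g 0)
      have h1 : IsPt (P.1, y) (a.1⁻¹ * g 0) := ⟨hP.1, hq.leftq y _ _ (inv_mem a.2) (hg 0).2⟩
      let x : Fin 5 := ⟨P.1, Nat.lt_succ_of_le (hq.valid P _ hP).1⟩
      exact ⟨(x, ⟨_, hq.orb _ _ _ h1 (hg x)⟩), Subtype.ext (by simp [e, mul_assoc])⟩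
  rw [Psi, finsum_split e he _ (api.fin _ _ _ _)] at h0
  have h1 : ∀ x : Fin 5, f 0 (x.1, y) = ∑ᶠ k, DD (dd T) (rG T (g 0) * vv T 0) (rG T (g 0) * vv T 1)
      (r0 T qq (e (x, k)) * 1) (r0 T qq (e (x, k)) * r0 T qq ⟨μ.1, le_q μ.2⟩) := fun x => by
    rw [hf 0 _ _ (hg x), Psi]
    refine finsum_congr fun k => ?_
    rw [← DD_inv ht.tree (rG T (g 0 * (g x)⁻¹))]
    simp only [r0_eq, e, ← mul_assoc, ← map_mul, inv_mul_cancel_right, zero_add]
  rw [← Finset.sum_congr rfl fun x _ => h1 x, Fin.sum_univ_five] at h0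
  exact h0

end Pool.Agent.MP_a88b1d_nt.H17
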